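import Pool.Agent.R228.GP.Main

/-!
# No lattice has finite deficiency for phase retrieval from the short-time Fourier transform
-/

set_option autoImplicit false

namespace Pool.Agent.Results.MP_19ca7b_an.NoFiniteDeficiency

open Pool.Agent.R228.GP MeasureTheory

/-- Question Q1 has a negative answer: for every window `g` in `L²(ℝ)`, every lattice
`A ℤ²` and every finite `P`, the pair `(g, A ℤ² ∪ P)` fails the uniqueness property. -/
theorem result (g : ℝ → ℂ) (hg : MemLp g 2 volume) (A : Matrix (Fin 2) (Fin 2) ℝ)
    (hA : A.det ≠ 0) (P : Set (ℝ × ℝ)) (hP : P.Finite) :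
    ¬ Uniqueness g (lattice A ∪ P) :=
  main hg hA hP

end Pool.Agent.Results.MP_19ca7b_an.NoFiniteDeficiency
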